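import Mathlib
import Pool.Agent.H819.Consts

set_option autoImplicit false

open Filter

/-- Digit changes of the multiples `q^n e`, `n < M`, in base `b`. Let `b = u^k v^l` and
`q = u^c v^d` with `u, v ≥ 2` coprime and `k d ≠ l c` (for instance any coprime `b, q ≥ 2`, with
`u = b`, `v = q`; or `b = 10` and `q = 2^c 5^d`, `c ≠ d`). Then there is `C > 0` such that, for all
large `M`, the number of pairs `(n, i)`, `0 ≤ n, i < M`, such that the `(i+1)`-st and `(i+2)`-nd
base-`b` digits after the point of `q^n e` are different is at least `C M^s` with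
`s = log 3 / log 2 > 1.58`. -/
theorem Pool.Agent.Results.MP_7e9a3a_nt.DigitChangesMultiplesE.result :
    ∀ u v k l c d b q : ℕ, 2 ≤ u → 2 ≤ v → Nat.Coprime u v → b = u ^ k * v ^ l →
      q = u ^ c * v ^ d → k * d ≠ l * c →
        ∃ C : ℝ, 0 < C ∧ ∀ᶠ M : ℕ in atTop, C * (M : ℝ) ^ (Real.log 3 / Real.log 2) ≤
          ((∑ n ∈ Finset.range M, ((Finset.range M).filter (fun i : ℕ =>
            ⌊(b : ℝ) ^ (i + 1) * ((q : ℝ) ^ n * Real.exp 1)⌋ % (b : ℤ) ≠
              ⌊(b : ℝ) ^ (i + 2) * ((q : ℝ) ^ n * Real.exp 1)⌋ % (b : ℤ))).card : ℕ) : ℝ) :=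
  fun u v k l c d _ _ hu hv huv hb hq hne =>
    Pool.Agent.H819.changes_e ⟨u, v, k, l, c, d, hu, hv, huv, hb, hq, hne⟩
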