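import Mathlib
import Pool.Agent.H726R3.Sq5

/-!
# Non-zero digits of polynomial values at `π` and `e`

`digit b x i` is the `i`-th base-`b` digit of `x` after the point and `cnt b d x N` is the number
of `1 ≤ i ≤ N` whose digit is not `d`.

Let `x₁, …, x_r` be positive irrational numbers, none of them a Liouville number
(`π`, `e`, `√π`, `√e` are among them), and `P` an integer polynomial of total degree `D ≥ 1` whose
coefficients other than the constant one are non-negative.  For every `θ < 1 / D` there is `c > 0`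
such that for all large `N` some `x_k` has at least `N ^ θ` non-zero digits among its first `N`
digits, or `P(x₁, …, x_r)` has at least `c (log N) ^ D`.
-/

set_option autoImplicit false

open Finset Filter

namespace Pool.Agent.Results.MP_7e9a3a_nt.DigitsOfPowers

/-- the `i`-th base-`b` digit of `x` after the point -/
noncomputable def digit (b : ℕ) (x : ℝ) (i : ℕ) : ℤ := ⌊x * (b : ℝ) ^ i⌋ % (b : ℤ)

/-- the number of `1 ≤ i ≤ N` such that the `i`-th base-`b` digit of `x` is not `d` -/
noncomputable def cnt (b : ℕ) (d : ℤ) (x : ℝ) (N : ℕ) : ℕ :=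
  ((Icc 1 N).filter (fun i => digit b x i ≠ d)).card

/-- `x` is one of `π`, `e`, `√π`, `√e`, or an irrational number that is not a Liouville number -/
def Tame (x : ℝ) : Prop :=
  (x = Real.pi ∨ x = Real.exp 1 ∨ x = √Real.pi ∨ x = √(Real.exp 1)) ∨
    (Irrational x ∧ ¬ Liouville x)

theorem result (b : ℕ) (hb : 2 ≤ b) (r : ℕ) (x : Fin r → ℝ) (hx : ∀ k, 0 < x k ∧ Tame (x k))
    (P : MvPolynomial (Fin r) ℤ) (hP : ∀ m, m ≠ 0 → 0 ≤ P.coeff m) (hD : 1 ≤ P.totalDegree)
    (θ : ℝ) (hθ : θ * P.totalDegree < 1) :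
    ∃ c : ℝ, 0 < c ∧ ∀ᶠ N : ℕ in atTop,
      (∃ k, (N : ℝ) ^ θ ≤ cnt b 0 (x k) N) ∨
        c * (Real.log N) ^ P.totalDegree ≤ cnt b 0 (MvPolynomial.aeval x P) N := by
  have key : ∀ x : ℝ, Tame x → Irrational x ∧ Pool.Agent.H726R3.Sq.NB b x := by
    intro x hx
    apply Pool.Agent.H726R3.Sq.cond hb
    rcases hx with hx | ⟨h1, h2⟩
    · exact Or.inl hx
    · refine Or.inr ⟨h1, ?_⟩
      by_contra hcon
      push Not at hcon
      exact h2 (forall_liouvilleWith_iff.mp hcon)
  exact Pool.Agent.H726R3.Sq.poly hb (fun k => (hx k).1) (fun k => (key _ (hx k).2).1)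
    (fun k => (key _ (hx k).2).2) P hP hD hθ

end Pool.Agent.Results.MP_7e9a3a_nt.DigitsOfPowers
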