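import Pool.Agent.H831R3.LC.Final
import Pool.Agent.H43R2.Cplx.EMeas

/-!
# The linear complexity profile of the digits of `e`

In every base the linear complexity over `ℚ` of the first `L` digits of `e` is asymptotically
`L / 2`, as it is for random digits, uniformly in the base.
-/

set_option autoImplicit false

namespace Pool.Agent.Results.MP_7e9a3a_nt.LinearComplexityOfE

open Finset

/-- the `i`-th digit of `x` after the point in base `b` -/
noncomputable def digit (b : ℕ) (x : ℝ) (i : ℕ) : ℤ := ⌊x * (b : ℝ) ^ i⌋ % (b : ℤ)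

/-- The first `L` digits `a_1, …, a_L` satisfy a linear recurrence of order `m` over `ℚ`:
`a_(i+m) = c_0 a_i + … + c_(m-1) a_(i+m-1)` for `1 ≤ i ≤ L - m`. -/
def Recurrence (b : ℕ) (x : ℝ) (L m : ℕ) : Prop :=
  ∃ c : ℕ → ℚ, ∀ i : ℕ, 1 ≤ i → i + m ≤ L →
    (digit b x (i + m) : ℚ) = ∑ j ∈ range m, c j * (digit b x (i + j) : ℚ)

/-- the linear complexity over `ℚ` of the first `L` digits: the least order of a recurrence -/
noncomputable def linearComplexity (b : ℕ) (x : ℝ) (L : ℕ) : ℕ := sInf {m | Recurrence b x L m}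

/-- For every `ε > 0` there is `L₀` such that for all `L ≥ L₀` and all bases `b ≥ 2` the linear
complexity over `ℚ` of the first `L` digits of `e` in base `b` lies between `(1/2 - ε) L` and
`(1/2 + ε) L`. -/
theorem result (ε : ℝ) (hε : 0 < ε) : ∃ L₀ : ℕ, ∀ L : ℕ, L₀ ≤ L → ∀ b : ℕ, 2 ≤ b →
    (1 / 2 - ε) * L < linearComplexity b (Real.exp 1) L ∧
      (linearComplexity b (Real.exp 1) L : ℝ) < (1 / 2 + ε) * L :=
  Pool.Agent.H831R3.LC.half (Real.exp 1) (fun ε hε => Pool.Agent.H43R2.Cplx.EMeas.measure ε hε)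
    ε hε

end Pool.Agent.Results.MP_7e9a3a_nt.LinearComplexityOfE
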