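import Mathlib
import Pool.Agent.H847R3.SuppF

/-!
Every word occurs often in the digits of the multiples of `e`, `π` and `√2`.
-/

set_option autoImplicit false

open Filter

/-- Let `x` be `e`, `π`, `√2`, or any irrational number that is not a Liouville number. The word of
length `k` with value `W` (its digits are those of `W` in base `b`, with leading zeros) occurs in
`y` right after the `i`-th digit if and only if `⌊b ^ (i + k) y⌋ mod b ^ k = W`. -/
theorem Pool.Agent.Results.MP_7e9a3a_nt.WordsInMultiples.result :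
    ∀ b q : ℕ, 2 ≤ b → 2 ≤ q → Irrational (Real.log b / Real.log q) →
      ∃ s : ℝ, 1 < s ∧
        ((∃ u v k l c d : ℕ, 2 ≤ u ∧ 2 ≤ v ∧ Nat.Coprime u v ∧ b = u ^ k * v ^ l ∧
          q = u ^ c * v ^ d ∧ k * d ≠ l * c) → s = Real.log 3 / Real.log 2) ∧
        ∀ x : ℝ, (x = Real.exp 1 ∨ x = Real.pi ∨ x = √2 ∨ (Irrational x ∧ ¬ Liouville x)) →
          ∀ k W : ℕ, W < b ^ k → ∃ C : ℝ, 0 < C ∧ ∀ᶠ M : ℕ in atTop, C * (M : ℝ) ^ s ≤
            (((Finset.range M ×ˢ Finset.range M).filter (fun u : ℕ × ℕ =>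
              ⌊(b : ℝ) ^ (u.2 + k) * ((q : ℝ) ^ u.1 * x)⌋ % ((b : ℤ) ^ k) = (W : ℤ))).card : ℝ) := by
  intro b q hb hq hirr
  obtain ⟨s, hs1, hs2, hs⟩ := Pool.Agent.H847R3.XpXq.exists_gr2 hb hq hirr
  refine ⟨s, hs1, ?_, ?_⟩
  · rintro ⟨u, v, k, l, c, d, h1, h2, h3, h4, h5, h6⟩
    exact hs2 ⟨u, v, k, l, c, d, h1, h2, h3, h4, h5, h6⟩
  · intro x hx k W hW
    have h : Irrational x ∧ ¬ Liouville x := by
      rcases hx with rfl | rfl | rfl | h
      · exact Pool.Agent.H847R3.XpXq.e_good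
      · exact Pool.Agent.H847R3.XpXq.pi_good
      · exact Pool.Agent.H847R3.XpXq.sqrt_two_good
      · exact h
    exact Pool.Agent.H847R3.XpXq.words hb hq hirr hs h.1 h.2 k W hW
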